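import Pool.Agent.Y522.NA.StmP
import Pool.Agent.Y514.SH.Base
import Pool.Agent.Helper514.IoD
import Pool.Agent.Y702.SH.ExtO
import Pool.Agent.Y702.SH.GlobV

/-!
# Schoenflies theorem for nearly affine balls (job NP-Sch of helper522)
-/

set_option autoImplicit false

open Set Filter Topology Metric Function MeasureTheory
open scoped Manifold ContDiff

noncomputable section

namespace Pool.Agent.Y514.NA

open Pool.Agent.Y522 Pool.Agent.Y522.NA Pool.Agent.Y514.SH

theorem UB_emb (n : ℕ) : IsOpenEmbedding (UB n) :=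
  (UB n).isOpenEmbedding (UB_source n)

/-- the metric of the open unit ball, transported to `ℝ^n` -/
abbrev mUB (n : ℕ) : MetricSpace (E n) :=
  (UB_emb n).isEmbedding.comapMetricSpace (UB n)

theorem mUB_dist (n : ℕ) (x y : E n) :
    @dist (E n) (mUB n).toPseudoMetricSpace.toDist x y = dist (UB n x) (UB n y) := rfl

theorem naff_transport (n : ℕ) (κ ε : ℝ) (H : E n → E n) (x : E n)
    (h : NAffAt n κ ε H (UB n x)) :
    @NAffAt n (E n) (E n) (mUB n) (chartedSpaceSelf (E n)) _ _ κ ε (fun y => H (UB n y)) x := by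
  obtain ⟨A, B, hA0, hAL, hBL, ρ, hρ, hBl, hNA⟩ := h
  have h1 : ∀ᶠ z in 𝓝 (0 : E n), ‖A z‖ < 1 := by
    have h2 : ContinuousAt (fun z => ‖A z‖) 0 := hAL.continuousAt.norm
    refine h2.eventually (gt_mem_nhds ?_)
    show ‖A 0‖ < 1
    rw [hA0]
    exact UB_norm n x
  obtain ⟨r, hr, hrs⟩ := Metric.eventually_nhds_iff.1 h1
  have hin : ∀ z : E n, ‖z‖ < r → ‖A z‖ < 1 := fun z hz => hrs (by rwa [dist_zero_right])
  have hUA : ∀ z : E n, ‖z‖ < r → UB n ((UB n).symm (A z)) = A z := fun z hz =>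
    UB_right n (hin z hz)
  refine ⟨fun z => (UB n).symm (A z), B, ?_, ?_, hBL, min ρ (r / 2), lt_min hρ (by linarith),
    ?_, ?_⟩
  · show (UB n).symm (A 0) = x
    rw [hA0]
    exact UB_left n x
  · refine LD.comp_fun (g := (UB n).symm) (f := A) ?_ hAL
    rw [hA0]
    exact UB_symm_LD n (UB_norm n x)
  · intro p q hp hq
    have hp1 := hp.trans_le (min_le_left _ _)
    have hq1 := hq.trans_le (min_le_left _ _)
    have hp2 : ‖p‖ < r := by linarith [hp.trans_le (min_le_right _ _)]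
    have hq2 : ‖q‖ < r := by linarith [hq.trans_le (min_le_right _ _)]
    have h3 := hBl p q hp1 hq1
    rw [mUB_dist, hUA p hp2, hUA q hq2]
    exact h3
  · intro p hp s hs hs2
    obtain ⟨L, hL⟩ := hNA p (hp.trans_le (min_le_left _ _)) s hs (hs2.trans_le (min_le_left _ _))
    refine ⟨L, fun v hv => ?_⟩
    have h3 : ‖p‖ < r / 2 := hp.trans_le (min_le_right _ _)
    have h4 : s < r / 2 := hs2.trans_le (min_le_right _ _)
    have h5 : ‖p + v‖ < r := by
      have := norm_add_le p v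
      linarith
    have h6 := hL v hv
    simp only at h6 ⊢
    rw [hUA _ h5, hUA p (by linarith)]
    exact h6

theorem sch3 (hR : StNARel) : StSch3 := by
  intro n κ
  obtain ⟨ε, hε, hR⟩ := hR n κ
  refine ⟨ε, hε, ?_⟩
  intro H δ hδ hHc hHi hHL hNA
  have hsub : ball (0 : E n) 1 ⊆ ball 0 (1 + δ) := ball_subset_ball (by linarith)
  have hFc : Continuous (fun y => H (UB n y)) := by
    have h1 : ContinuousOn H (ball 0 1) := hHc.mono hsub
    exact h1.comp_continuous (UB_continuous n) fun x => mem_ball_zero_iff.2 (UB_norm _ x)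
  have hFi : Injective (fun y => H (UB n y)) := by
    intro x y hxy
    exact UB_inj n (hHi (hsub (mem_ball_zero_iff.2 (UB_norm _ x)))
      (hsub (mem_ball_zero_iff.2 (UB_norm _ y))) hxy)
  have hFo : IsOpenMap (fun y => H (UB n y)) := by
    refine IsOpenMap.of_nhds_le fun x s hs => ?_
    obtain ⟨r, hr, hrs⟩ := Metric.nhds_basis_closedBall.mem_iff.1 (Filter.mem_map.1 hs)
    have h1 := Pool.Agent.Helper514.IoD.image_mem_nhds (fun y => H (UB n y)) x r hr
      hFc.continuousOn hFi.injOn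
    refine mem_of_superset h1 ?_
    rintro _ ⟨y, hy, rfl⟩
    exact hrs hy
  have hemb : IsOpenEmbedding (fun y => H (UB n y)) :=
    IsOpenEmbedding.of_continuous_injective_isOpenMap hFc hFi hFo
  have hbad : IsCompact {x | ¬ LD n (fun y => H (UB n y)) x} :=
    isCompact_bad n H fun x hx => hHL x hx.ge (by linarith)
  have hNA' : ∀ x, ¬ LD n (fun y => H (UB n y)) x →
      @NAffAt n (E n) (E n) (mUB n) (chartedSpaceSelf (E n)) _ _ κ ε (fun y => H (UB n y)) x :=
    fun x hx => naff_transport n κ ε H x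
      (hNA _ (UB_norm n x) fun hc => hx ((LD_iff _ H x).2 hc))
  have key := @hR (E n) (mUB n) (chartedSpaceSelf (E n))
    (inferInstanceAs (IsManifold (𝓡 n) ∞ (E n))) (fun y => H (UB n y)) hFc hbad hNA'
    (range (fun y => H (UB n y))) hemb.isOpen_range (fun x => mem_range_self x)
  obtain ⟨F', C, hC, hF'c, hF'C, hF'V, hF'L⟩ := key
  obtain ⟨hF'i, hF'r⟩ := Pool.Agent.Y702.SH.coverV n (E n) (fun y => H (UB n y)) F' C hemb
    (isPreconnected_range hFc) hC hF'C hF'V hF'L
  exact finish Pool.Agent.Y702.SH.extO n H δ hδ hHi hHL F' C hC hF'i hF'r hF'C hF'L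

end Pool.Agent.Y514.NA
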